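import Mathlib
import Pool.Agent.Helper255.NdA
import Pool.Agent.Helper255.NdD

set_option autoImplicit false

open Real Set
open scoped ContDiff

namespace Pool.Agent.Results.MP_f07be6_gt.MuIsOne

/-- `ℝⁿ` with its Euclidean norm. -/
abbrev Rn (n : ℕ) := EuclideanSpace ℝ (Fin n)

/-- A smooth closed curve `S¹ → ℝⁿ`, `S¹ = ℝ/2πℤ`: a smooth `2π`-periodic map `ℝ → ℝⁿ`. -/
def IsClosedCurve {n : ℕ} (γ : ℝ → Rn n) : Prop :=
  ContDiff ℝ ∞ γ ∧ Function.Periodic γ (2 * π)

/-- `γ'(t) ∧ γ''(t) ∧ ⋯ ∧ γ⁽ⁿ⁾(t) ≠ 0` for every `t`. -/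
def Nondegenerate {n : ℕ} (γ : ℝ → Rn n) : Prop :=
  ∀ t, LinearIndependent ℝ (fun i : Fin n => iteratedDeriv (i + 1) γ t)

/-- `c_m(t) = (cos mt, sin mt, 0, …, 0)`. -/
noncomputable def circle (n m : ℕ) (t : ℝ) : Rn n :=
  WithLp.toLp 2 fun i : Fin n =>
    if (i : ℕ) = 0 then cos (m * t) else if (i : ℕ) = 1 then sin (m * t) else 0

/-- `U` is a `C^∞`-neighbourhood of the closed curve `c`: for some order `k` and some `δ > 0`
it contains all smooth closed curves whose derivatives of order `0, …, k` are uniformly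
`δ`-close to those of `c`. -/
def IsSmoothNhd {n : ℕ} (c : ℝ → Rn n) (U : Set (ℝ → Rn n)) : Prop :=
  ∃ (k : ℕ) (δ : ℝ), 0 < δ ∧ ∀ γ : ℝ → Rn n, IsClosedCurve γ →
    (∀ j ≤ k, ∀ t, ‖iteratedDeriv j γ t - iteratedDeriv j c t‖ < δ) → γ ∈ U

/-- The `m ≥ 1` such that every `C^∞`-neighbourhood of `c_m` contains a nondegenerate closed
curve in `ℝⁿ`. -/
def multiplicities (n : ℕ) : Set ℕ :=
  {m | 1 ≤ m ∧ ∀ U, IsSmoothNhd (circle n m) U → ∃ γ ∈ U, IsClosedCurve γ ∧ Nondegenerate γ}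

/-- `μ(n)`, the least element of `multiplicities n`. -/
noncomputable def mu (n : ℕ) : ℕ := sInf (multiplicities n)

/-- The `(i+1)`-st vector `e_{i+1}(t)` of the Frenet frame: Gram-Schmidt orthonormalisation of
`γ'(t), …, γ⁽ⁿ⁾(t)`. -/
noncomputable def frenet {n : ℕ} (γ : ℝ → Rn n) (i : Fin n) (t : ℝ) : Rn n :=
  InnerProductSpace.gramSchmidtNormed ℝ (fun j : Fin n => iteratedDeriv (j + 1) γ t) i

/-- The curvature `κ_{i+1} = ⟨d e_{i+1} / ds, e_{i+2}⟩`, `i = 0, …, n - 2`, `ds = ‖γ'‖ dt`. -/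
noncomputable def curvature {n : ℕ} (γ : ℝ → Rn n) (i : Fin (n - 1)) (t : ℝ) : ℝ :=
  inner ℝ (deriv (frenet γ ⟨i, by omega⟩) t) (frenet γ ⟨i + 1, by omega⟩ t) / ‖deriv γ t‖

/-- The length `L(E) = ∫ (κ_1² + ⋯ + κ_{n-1}²)^{1/2} ds` of the Frenet frame. -/
noncomputable def frameLength {n : ℕ} (γ : ℝ → Rn n) : ℝ :=
  ∫ t in (0 : ℝ)..(2 * π), Real.sqrt (∑ i, curvature γ i t ^ 2) * ‖deriv γ t‖

open Pool.Agent.Helper255.Nd

/-- A jet of a map into `ℝⁿ`. -/
lemma iteratedDeriv_toLp {n : ℕ} {F : ℕ → ℝ → Fin n → ℝ} (hJ : Jet F) (j : ℕ) :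
    iteratedDeriv j (fun t => (WithLp.toLp 2 (F 0 t) : Rn n)) = fun t => WithLp.toLp 2 (F j t) := by
  induction j with
  | zero => simp
  | succ j ih =>
    rw [iteratedDeriv_succ, ih]
    funext t
    apply HasDerivAt.deriv
    have h1 : HasDerivAt (F j) (F (j + 1) t) t := hasDerivAt_pi.mpr (hJ j t)
    exact ((EuclideanSpace.equiv (Fin n) ℝ).symm.toContinuousLinearMap.hasFDerivAt.comp_hasDerivAt
      t h1)

lemma contDiff_toLp {n : ℕ} {F : ℕ → ℝ → Fin n → ℝ} (hJ : Jet F) :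
    ContDiff ℝ ∞ (fun t => (WithLp.toLp 2 (F 0 t) : Rn n)) := by
  apply contDiff_of_differentiable_iteratedDeriv
  intro m _
  rw [iteratedDeriv_toLp hJ m]
  intro t
  have h1 : HasDerivAt (F m) (F (m + 1) t) t := hasDerivAt_pi.mpr (hJ m t)
  exact ((EuclideanSpace.equiv (Fin n) ℝ).symm.toContinuousLinearMap.hasFDerivAt.comp_hasDerivAt
      t h1).differentiableAt

lemma nondegenerate_of_dual {n : ℕ} {F : ℕ → ℝ → Fin n → ℝ} (hJ : Jet F) (hD : DNd F) :
    Nondegenerate (fun t => (WithLp.toLp 2 (F 0 t) : Rn n)) := by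
  intro t
  have e : (fun i : Fin n => iteratedDeriv (i + 1) (fun t => (WithLp.toLp 2 (F 0 t) : Rn n)) t) =
      fun i : Fin n => WithLp.toLp 2 (F (i + 1) t) := by
    funext i
    rw [iteratedDeriv_toLp hJ]
  rw [e]
  let A : Matrix (Fin n) (Fin n) ℝ := fun i k => F (i + 1) t k
  have hA : IsUnit A := by
    rw [← Matrix.mulVec_injective_iff_isUnit]
    rw [← Matrix.coe_mulVecLin, ← LinearMap.ker_eq_bot, LinearMap.ker_eq_bot']
    intro x hx
    apply hD t x
    intro j hj1 hj2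
    have h : ∑ i, F (j - 1 + 1) t i * x i = 0 := congrFun hx ⟨j - 1, by omega⟩
    rw [Nat.sub_add_cancel hj1] at h
    rw [← h]
    exact Finset.sum_congr rfl fun i _ => mul_comm _ _
  have h1 : LinearIndependent ℝ A.row := Matrix.linearIndependent_rows_iff_isUnit.mpr hA
  have h2 := h1.map' (WithLp.linearEquiv 2 ℝ (Fin n → ℝ)).symm.toLinearMap (LinearEquiv.ker _)
  exact h2

lemma one_mem {n : ℕ} (hn : 4 ≤ n) : 1 ∈ multiplicities n := by
  refine ⟨le_rfl, ?_⟩
  rintro U ⟨k, δ, hδ, hU⟩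
  obtain ⟨F, hJ, hD, hP, hC⟩ := good_all hn
  -- the part of the curve orthogonal to the plane
  let Y : ℕ → ℝ → Fin n → ℝ := fun j t i => if (i : ℕ) < 2 then 0 else F j t i
  let H : ℕ → ℝ → Fin n → ℝ := fun j t i => if (i : ℕ) < 2 then F j t i else 0
  have hbd : ∀ j, ∃ C, ∀ t, ‖(WithLp.toLp 2 (Y j t) : Rn n)‖ ≤ C := by
    intro j
    have hc : Continuous (fun t => (WithLp.toLp 2 (Y j t) : Rn n)) := by
      have h0 : Continuous (Y j) := by
        apply continuous_pi
        intro i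
        by_cases h : (i : ℕ) < 2
        · simp only [Y, h, if_true]; exact continuous_const
        · simp only [Y, h, if_false]; exact (continuous_apply i).comp (hJ.cont j)
      exact (EuclideanSpace.equiv (Fin n) ℝ).symm.continuous.comp h0
    obtain ⟨C, hC⟩ := (isCompact_Icc (a := (0 : ℝ)) (b := 2 * π)).exists_bound_of_continuousOn
      hc.continuousOn
    refine ⟨C, fun t => ?_⟩
    obtain ⟨t₀, ht₀, ht⟩ := hP.red t
    have : Y j t = Y j t₀ := by
      funext i
      simp only [Y, ht j]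
    rw [this]
    exact hC t₀ ht₀
  choose C hCb using hbd
  set B := 1 + ∑ j ∈ Finset.range (k + 1), |C j| with hB
  have hB0 : 0 < B := by positivity
  have hCB : ∀ j ≤ k, C j < B := by
    intro j hj
    have := Finset.single_le_sum (f := fun j => |C j|) (fun i _ => abs_nonneg _)
      (Finset.mem_range.mpr (Nat.lt_succ_of_le hj))
    have h2 := le_abs_self (C j)
    linarith
  set ε := δ / B with hε
  have hε0 : 0 < ε := by positivity
  let Fε : ℕ → ℝ → Fin n → ℝ := fun j t i => if (i : ℕ) < 2 then F j t i else ε * F j t i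
  have hJε : Jet Fε := by
    intro j t i
    by_cases h : (i : ℕ) < 2
    · simp only [Fε, h, if_true]; exact hJ j t i
    · simp only [Fε, h, if_false]; exact (hJ j t i).const_mul ε
  have hJH : Jet H := by
    intro j t i
    by_cases h : (i : ℕ) < 2
    · simp only [H, h, if_true]; exact hJ j t i
    · simp only [H, h, if_false]; exact hasDerivAt_const t 0
  have hDε : DNd Fε := by
    intro t x hx
    have h1 : (fun i : Fin n => if (i : ℕ) < 2 then x i else ε * x i) = 0 := by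
      apply hD t
      intro j hj1 hj2
      rw [← hx j hj1 hj2]
      apply Finset.sum_congr rfl
      intro i _
      by_cases h : (i : ℕ) < 2
      · simp only [Fε, h, if_true]
      · simp only [Fε, h, if_false]; ring
    funext i
    have := congrFun h1 i
    by_cases h : (i : ℕ) < 2
    · simpa only [h, if_true] using this
    · simp only [h, if_false, Pi.zero_apply, mul_eq_zero] at this
      rcases this with h2 | h2
      · exact absurd h2 hε0.ne'
      · exact h2
  have hcirc : circle n 1 = fun t => (WithLp.toLp 2 (H 0 t) : Rn n) := by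
    funext t
    unfold circle
    congr 1
    funext i
    have := hC t i
    by_cases h0 : (i : ℕ) = 0
    · have h2 : (i : ℕ) < 2 := by omega
      simp only [H, if_true, h0, Nat.cast_one, one_mul]
      exact (this.1 h0).symm
    · by_cases h1 : (i : ℕ) = 1
      · have h2 : (i : ℕ) < 2 := by omega
        simp only [H, if_true, h1, Nat.cast_one, one_mul, one_ne_zero, if_false]
        exact (this.2 h1).symm
      · have h2 : ¬ (i : ℕ) < 2 := by omega
        simp only [H, h2, h0, h1, if_false]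
  have hclosed : IsClosedCurve (fun t => (WithLp.toLp 2 (Fε 0 t) : Rn n)) := by
    refine ⟨contDiff_toLp hJε, ?_⟩
    intro t
    show (WithLp.toLp 2 (Fε 0 (t + 2 * π)) : Rn n) = WithLp.toLp 2 (Fε 0 t)
    congr 1
    funext i
    simp only [Fε, hP 0 t i]
  refine ⟨fun t => (WithLp.toLp 2 (Fε 0 t) : Rn n), hU _ hclosed ?_, hclosed,
    nondegenerate_of_dual hJε hDε⟩
  intro j hj t
  rw [hcirc, iteratedDeriv_toLp hJε, iteratedDeriv_toLp hJH]
  have e : (WithLp.toLp 2 (Fε j t) : Rn n) - WithLp.toLp 2 (H j t) =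
      ε • WithLp.toLp 2 (Y j t) := by
    rw [← WithLp.toLp_sub, ← WithLp.toLp_smul]
    congr 1
    funext i
    show Fε j t i - H j t i = ε * Y j t i
    by_cases h : (i : ℕ) < 2
    · simp only [Fε, H, Y, if_pos h, sub_self, mul_zero]
    · simp only [Fε, H, Y, if_neg h, sub_zero]
  show ‖(WithLp.toLp 2 (Fε j t) : Rn n) - WithLp.toLp 2 (H j t)‖ < δ
  rw [e, norm_smul, Real.norm_of_nonneg hε0.le]
  calc ε * ‖(WithLp.toLp 2 (Y j t) : Rn n)‖ ≤ ε * C j :=
        mul_le_mul_of_nonneg_left (hCb j t) hε0.le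
    _ < ε * B := mul_lt_mul_of_pos_left (hCB j hj) hε0
    _ = δ := by rw [hε]; field_simp

lemma isLeast_one {n : ℕ} (hn : 4 ≤ n) : IsLeast (multiplicities n) 1 :=
  ⟨one_mem hn, fun _ hm => hm.1⟩

lemma mu_eq_one {n : ℕ} (hn : 4 ≤ n) : mu n = 1 :=
  (isLeast_one hn).csInf_eq

lemma frameLength_gt {n : ℕ} (hn : 4 ≤ n) {γ : ℝ → Rn n} (hγ : IsClosedCurve γ)
    (hnd : Nondegenerate γ) : 2 * π < frameLength γ := by
  obtain ⟨hsm, hper⟩ := hγ
  let G : ℕ → ℝ → Rn n := fun k t => iteratedDeriv (k + 1) γ t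
  have hdiff : ∀ k t, HasDerivAt (iteratedDeriv k γ) (iteratedDeriv (k + 1) γ t) t := by
    intro k t
    rw [iteratedDeriv_succ]
    exact ((hsm.differentiable_iteratedDeriv k (WithTop.coe_lt_coe.mpr (WithTop.coe_lt_top k)))
      t).hasDerivAt
  have hG : ∀ k t, HasDerivAt (G k) (G (k + 1) t) t := fun k t => hdiff (k + 1) t
  have hγ' : ∀ t, HasDerivAt γ (G 0 t) t := by
    intro t
    have := hdiff 0 t
    rwa [iteratedDeriv_zero] at this
  have hperk : ∀ k t, iteratedDeriv k γ (t + 2 * π) = iteratedDeriv k γ t := by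
    intro k
    induction k with
    | zero => intro t; rw [iteratedDeriv_zero]; exact hper t
    | succ k ih =>
      intro t
      have h1 : HasDerivAt (fun s => iteratedDeriv k γ (s + 2 * π))
          (iteratedDeriv (k + 1) γ (t + 2 * π)) t :=
        (hdiff k (t + 2 * π)).comp_add_const t (2 * π)
      have h2 : (fun s => iteratedDeriv k γ (s + 2 * π)) = iteratedDeriv k γ := funext ih
      rw [h2] at h1
      exact h1.unique (hdiff k t)
  have hli : ∀ t, LinearIndependent ℝ (fun j : Fin n => G j t) := hnd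
  have hmain := frame_length_gt (n := n) (by omega) hγ' hG hli
    (by have := hper 0; rwa [zero_add] at this)
    (fun k => by have := hperk (k + 1) 0; rwa [zero_add] at this)
  refine hmain.trans_eq ?_
  unfold frameLength
  apply intervalIntegral.integral_congr
  intro t _
  have hd : deriv γ t = G 0 t := (hγ' t).deriv
  have hi0 : gs n G t ⟨0, by omega⟩ = G 0 t := by
    have hIio : Finset.Iio (⟨0, by omega⟩ : Fin n) = ∅ := by
      ext k
      simp [Fin.lt_def]
    have := InnerProductSpace.gramSchmidt_def ℝ (fun j : Fin n => G j t) ⟨0, by omega⟩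
    rw [hIio, Finset.sum_empty, sub_zero] at this
    exact this
  have hv : 0 < ‖deriv γ t‖ := by
    rw [hd, ← hi0]
    exact gs_norm_pos (G := G) hli ⟨0, by omega⟩ t
  have hcurv : ∀ i : Fin (n - 1), curvature γ i t =
      (‖gs n G t ⟨i + 1, by omega⟩‖ / ‖gs n G t ⟨i, by omega⟩‖) / ‖deriv γ t‖ := by
    intro i
    have key := gn_inner_succ (G := G) hG hli ⟨i, by omega⟩ (by simp only; omega) t
    have e : curvature γ i t = inner ℝ (deriv (fun s => gn n G s ⟨i, by omega⟩) t)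
      (gn n G t ⟨i + 1, by omega⟩) / ‖deriv γ t‖ := rfl
    rw [e, key]
  show Real.sqrt (∑ i : Fin (n - 1), (‖gs n G t ⟨i + 1, by omega⟩‖ /
    ‖gs n G t ⟨i, by omega⟩‖) ^ 2) = Real.sqrt (∑ i, curvature γ i t ^ 2) * ‖deriv γ t‖
  have h1 : ∑ i, curvature γ i t ^ 2 = (∑ i : Fin (n - 1), (‖gs n G t ⟨i + 1, by omega⟩‖ /
    ‖gs n G t ⟨i, by omega⟩‖) ^ 2) / ‖deriv γ t‖ ^ 2 := by
    rw [Finset.sum_div]
    apply Finset.sum_congr rfl
    intro i _
    rw [hcurv i, div_pow (_ / _)]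
  rw [h1, Real.sqrt_div' _ (sq_nonneg _), Real.sqrt_sq hv.le, div_mul_cancel₀ _ hv.ne']

/-- For every `n ≥ 4`: `μ(n) = 1`, and the Frenet frame of every nondegenerate closed curve in
`ℝⁿ` has length greater than `2π μ(n)`. -/
theorem result :
    ∀ n : ℕ, 4 ≤ n →
      IsLeast (multiplicities n) 1 ∧ mu n = 1 ∧
      ∀ γ : ℝ → Rn n, IsClosedCurve γ → Nondegenerate γ → 2 * π * mu n < frameLength γ := by
  intro n hn
  refine ⟨isLeast_one hn, mu_eq_one hn, fun γ h1 h2 => ?_⟩
  rw [mu_eq_one hn, Nat.cast_one, mul_one]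
  exact frameLength_gt hn h1 h2

end Pool.Agent.Results.MP_f07be6_gt.MuIsOne
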